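import Pool.Agent.H6.KW.Local
import Pool.Agent.H6.KW.Small

/-!
# MP_848d44_nt: Montgomery's bound for a fixed modulus holds somewhere in every window `[x, A x]`

For a fixed modulus `q` the question asks (for all large `x`) for the generalized Riemann hypothesis
modulo `q`, `|ψ(x, q, a) - x / φ(q)| ≤ x ^ (1 / 2 + ε)` for all `x`. We prove, without any hypothesis on
the zeros off the real axis, that EVERY window `[x, A x]` contains an interval `[y, y + √y]` on which
the inequality holds, provided that no `L(s, χ)` modulo `q` has a real zero in `(1 / 2, 1)`; this is the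
case for `q = 1, 2, 3, 4, 6`. For an arbitrary modulus the exponent is the largest real zero `+ ε`, and
for arbitrarily short windows (every `A > 1`) and every modulus there is still a power saving. All this
holds for all linear combinations of the errors of the different classes, with one constant.

The library (`H353`, `H353R5`) provides a monotone smooth cutoff `W` at some scale `A` such that
`∑ Λ(n) W(x / n)`, `n ≡ a` modulo `q`, is asymptotic to the main term with error `O(x ^ θ)` (an infinite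
convolution of two-point measures which kills all nonreal zeros with real part `≥ σ > 1/2`; convergent by
Carlson's density theorem). We show that the scale tends to `1` for `θ → 1`, and go back to the sharp
sums by partial summation and a discrete intermediate value theorem.
-/

set_option autoImplicit false

namespace Pool.Agent.Results.MP_848d44_nt.SquareRootSomewhere

open Finset H353 H353.D Pool.Agent.H6.KW

noncomputable section

/-- `ψ(x, q, a)`: the sum of `Λ(n)` over the `n ≤ x` with `n ≡ a` modulo `q`. -/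
def psi (x : ℝ) (q a : ℕ) : ℝ :=
  ∑ n ∈ (Icc 1 ⌊x⌋₊).filter (fun n => n ≡ a [MOD q]), ArithmeticFunction.vonMangoldt n

/-- The reduced residue classes modulo `q`. -/
def classes (q : ℕ) : Finset ℕ := (range q).filter (fun a => a.Coprime q)

/-- For all real weights `c` on the reduced residue classes modulo `q` and all `x ≥ 1` the window
`[x, A x]` contains `y` such that on the interval `[y, y + √y]` the weighted sum of the errors
`ψ(z, q, a) - z / φ(q)` is at most `C (∑ |c a|) z ^ θ` in absolute value. -/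
def Somewhere (q : ℕ) (A θ C : ℝ) : Prop :=
  ∀ x : ℝ, 1 ≤ x → ∀ c : ℕ → ℝ, ∃ y : ℝ, x ≤ y ∧ y ≤ A * x ∧
    ∀ z : ℝ, y ≤ z → z ≤ y + √y →
      |∑ a ∈ classes q, c a * (psi z q a - z / q.totient)| ≤ C * (∑ a ∈ classes q, |c a|) * z ^ θ

theorem psi_eq (q a : ℕ) (N : ℕ) :
    ∑ n ∈ Icc 1 N, aP (q := q) (a : ZMod q) n =
      (∑ n ∈ (Icc 1 N).filter (fun n => n ≡ a [MOD q]), ArithmeticFunction.vonMangoldt n) -
        N / q.totient := by
  have h1 : ∀ n ∈ Icc 1 N, aP (q := q) (a : ZMod q) n =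
      (if n ≡ a [MOD q] then ArithmeticFunction.vonMangoldt n else 0) - (q.totient : ℝ)⁻¹ := by
    intro n hn
    rw [mem_Icc] at hn
    unfold aP ArithmeticFunction.vonMangoldt.residueClass
    rw [if_neg (by omega)]
    congr 1
    by_cases h : n ≡ a [MOD q]
    · rw [if_pos h, Set.indicator_of_mem (show n ∈ {n : ℕ | (n : ZMod q) = a} from
        (ZMod.natCast_eq_natCast_iff n a q).2 h)]
    · rw [if_neg h, Set.indicator_of_notMem (show n ∉ {n : ℕ | (n : ZMod q) = a} from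
        fun h' => h ((ZMod.natCast_eq_natCast_iff n a q).1 h'))]
  rw [sum_congr rfl h1, sum_sub_distrib, sum_filter, sum_const, Nat.card_Icc, nsmul_eq_mul]
  simp only [add_tsub_cancel_right]
  rw [div_eq_mul_inv]

theorem aP_le (q : ℕ) [NeZero q] (b : ZMod q) (n : ℕ) (hn : 1 ≤ n) : |aP b n| ≤ Real.log n + 1 := by
  unfold aP ArithmeticFunction.vonMangoldt.residueClass
  rw [if_neg (by omega)]
  have h1 : 0 ≤ ({n : ℕ | (n : ZMod q) = b}).indicator (fun n => ArithmeticFunction.vonMangoldt n) n :=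
    Set.indicator_nonneg (fun _ _ => ArithmeticFunction.vonMangoldt_nonneg) _
  have h2 : ({n : ℕ | (n : ZMod q) = b}).indicator (fun n => ArithmeticFunction.vonMangoldt n) n ≤
      Real.log n := by
    refine (Set.indicator_le_self' (fun _ _ => ArithmeticFunction.vonMangoldt_nonneg) n).trans ?_
    exact ArithmeticFunction.vonMangoldt_le_log
  have h3 : (0:ℝ) < q.totient := by exact_mod_cast Nat.totient_pos.2 (Nat.pos_of_ne_zero (NeZero.ne q))
  have h4 : (q.totient : ℝ)⁻¹ ≤ 1 := by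
    apply inv_le_one_of_one_le₀
    exact_mod_cast Nat.totient_pos.2 (Nat.pos_of_ne_zero (NeZero.ne q))
  have h5 : 0 < (q.totient : ℝ)⁻¹ := inv_pos.2 h3
  have h6 : 0 ≤ Real.log n := Real.log_natCast_nonneg n
  rw [abs_le]
  constructor <;> linarith

/-- from a monotone cutoff to the sharp sums -/
theorem somewhere_of_cut (q : ℕ) [NeZero q] {A B θ : ℝ} (hA : 1 < A) (hAB : A < B) (h1 : 1 / 2 < θ)
    (h2 : θ < 1) {W : ℝ → ℝ} (hW : CutW A W) (hm : Monotone W)
    (hb : ∀ b : ZMod q, IsUnit b → bdW (aP b) θ W) : ∃ C : ℝ, Somewhere q B θ C := by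
  obtain ⟨C, hC, hloc⟩ := local_gen (ι := {a : ℕ // a ∈ classes q})
    (fun a n => aP (q := q) (a.1 : ZMod q) n)
    (fun a n hn => aP_le q _ n hn) hA hAB h1 h2 hW hm (fun a => hb _ (by
      have h3 := a.2
      unfold classes at h3
      rw [mem_filter] at h3
      exact (ZMod.isUnit_iff_coprime _ _).2 h3.2))
  refine ⟨C + 1, fun x hx c => ?_⟩
  obtain ⟨y, hy1, hy2, hy3⟩ := hloc x hx (fun a => c a.1)
  refine ⟨y, hy1, hy2, fun z hz1 hz2 => ?_⟩
  have hz : 1 ≤ z := by linarith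
  have hz0 : 0 < z := by linarith
  have key := hy3 z hz1 hz2
  have e1 : ∀ (g : ℕ → ℝ), ∑ a : {a : ℕ // a ∈ classes q}, g a.1 = ∑ a ∈ classes q, g a :=
    fun g => (Finset.sum_coe_sort (classes q) g)
  rw [e1 (fun a => c a * ∑ n ∈ Icc 1 ⌊z⌋₊, aP (q := q) (a : ZMod q) n), e1 (fun a => |c a|)] at key
  have hφ : (1:ℝ) ≤ q.totient := by exact_mod_cast Nat.totient_pos.2 (Nat.pos_of_ne_zero (NeZero.ne q))
  have e2 : ∑ a ∈ classes q, c a * (psi z q a - z / q.totient) =
      ∑ a ∈ classes q, c a * ∑ n ∈ Icc 1 ⌊z⌋₊, aP (q := q) (a : ZMod q) n -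
        (∑ a ∈ classes q, c a) * ((z - ⌊z⌋₊) / q.totient) := by
    rw [sum_mul, ← sum_sub_distrib]
    refine sum_congr rfl fun a _ => ?_
    rw [psi_eq, psi]
    ring
  rw [e2]
  have e3 : |(z - ⌊z⌋₊) / (q.totient : ℝ)| ≤ 1 := by
    rw [abs_div, abs_of_nonneg (by linarith : (0:ℝ) ≤ q.totient), div_le_one (by linarith)]
    have h5 : (⌊z⌋₊ : ℝ) ≤ z := Nat.floor_le hz0.le
    have h6 := Nat.lt_floor_add_one z
    rw [abs_of_nonneg (by linarith)]
    linarith
  have e4 : |(∑ a ∈ classes q, c a) * ((z - ⌊z⌋₊) / (q.totient : ℝ))| ≤ ∑ a ∈ classes q, |c a| := by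
    rw [abs_mul]
    calc |∑ a ∈ classes q, c a| * |(z - ⌊z⌋₊) / (q.totient : ℝ)| ≤ (∑ a ∈ classes q, |c a|) * 1 :=
          mul_le_mul (abs_sum_le_sum_abs _ _) e3 (abs_nonneg _) (sum_nonneg fun _ _ => abs_nonneg _)
      _ = _ := mul_one _
  have hK : 0 ≤ ∑ a ∈ classes q, |c a| := sum_nonneg fun _ _ => abs_nonneg _
  have e5 : 1 ≤ z ^ θ := Real.one_le_rpow hz (by linarith)
  have e6 : ∑ a ∈ classes q, |c a| ≤ (∑ a ∈ classes q, |c a|) * z ^ θ := le_mul_of_one_le_right hK e5
  calc |∑ a ∈ classes q, c a * ∑ n ∈ Icc 1 ⌊z⌋₊, aP (q := q) (a : ZMod q) n -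
        (∑ a ∈ classes q, c a) * ((z - ⌊z⌋₊) / q.totient)|
      ≤ |∑ a ∈ classes q, c a * ∑ n ∈ Icc 1 ⌊z⌋₊, aP (q := q) (a : ZMod q) n| +
        |(∑ a ∈ classes q, c a) * ((z - ⌊z⌋₊) / (q.totient : ℝ))| := abs_sub _ _
    _ ≤ C * (∑ a ∈ classes q, |c a|) * z ^ θ + (∑ a ∈ classes q, |c a|) * z ^ θ := by linarith
    _ = _ := by ring

/-- **Main theorem.** (1) Every modulus `q` and every `A > 1`: a power saving somewhere in every window
`[x, A x]`. (2) If no `L(s, χ)`, `χ` modulo `q`, has a real zero in `(α, 1)`, `1 / 2 ≤ α < 1`: the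
exponent `α + ε` somewhere in every window `[x, A x]`, for some `A`. (3) For `q = 1, 2, 3, 4, 6`: the
exponent `1 / 2 + ε`, without any hypothesis. -/
theorem result :
    (∀ (q : ℕ) [NeZero q], ∀ A : ℝ, 1 < A → ∃ δ C : ℝ, 0 < δ ∧ Somewhere q A (1 - δ) C) ∧
    (∀ (q : ℕ) [NeZero q], ∀ α : ℝ, 1 / 2 ≤ α → α < 1 →
      (∀ (χ : DirichletCharacter ℂ q) (s : ℝ), α < s → s < 1 → χ.LFunction (s : ℂ) ≠ 0) →
        ∀ ε : ℝ, 0 < ε → ∃ A C : ℝ, 1 < A ∧ Somewhere q A (α + ε) C) ∧
    (∀ q : ℕ, q = 1 ∨ q = 2 ∨ q = 3 ∨ q = 4 ∨ q = 6 →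
      ∀ ε : ℝ, 0 < ε → ∃ A C : ℝ, 1 < A ∧ Somewhere q A (1 / 2 + ε) C) := by
  have p2 : ∀ (q : ℕ) [NeZero q], ∀ α : ℝ, 1 / 2 ≤ α → α < 1 →
      (∀ (χ : DirichletCharacter ℂ q) (s : ℝ), α < s → s < 1 → χ.LFunction (s : ℂ) ≠ 0) →
        ∀ ε : ℝ, 0 < ε → ∃ A C : ℝ, 1 < A ∧ Somewhere q A (α + ε) C := by
    intro q _ α h1 h2 hz ε hε
    -- an exponent below `1`
    set θ : ℝ := min (α + ε) ((α + 1) / 2) with hθ
    have t1 : α < θ := lt_min (by linarith) (by linarith)
    have t2 : θ < 1 := lt_of_le_of_lt (min_le_right _ _) (by linarith)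
    have hT := (main_real (q := q) α h1).out 0 2
    obtain ⟨A, hA, W, hW, hm, hb⟩ := hT.1 hz θ t1 t2
    obtain ⟨C, hC⟩ := somewhere_of_cut q hA (by linarith : A < 2 * A) (by linarith) t2 hW hm
      (fun b hu => (bdC_iff b θ (by linarith) hA hW).1 (hb b hu))
    refine ⟨2 * A, C, by linarith, fun x hx c => ?_⟩
    obtain ⟨y, a1, a2, a3⟩ := hC x hx c
    refine ⟨y, a1, a2, fun z z1 z2 => ?_⟩
    have hz1 : 1 ≤ z := by linarith
    have hC0 : 0 ≤ C * ∑ a ∈ classes q, |c a| := by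
      have h5 := (abs_nonneg _).trans (a3 z z1 z2)
      have h6 : 0 < z ^ θ := Real.rpow_pos_of_pos (by linarith) _
      exact nonneg_of_mul_nonneg_left h5 h6
    refine (a3 z z1 z2).trans (mul_le_mul_of_nonneg_left ?_ hC0)
    exact Real.rpow_le_rpow_of_exponent_le hz1 (min_le_left _ _)
  refine ⟨fun q _ A hA => ?_, p2, fun q hq ε hε => ?_⟩
  · obtain ⟨θ, h1, h2, W, hW, hm, hb⟩ := mono_every (LT_Pq q) ((1 + A) / 2) (by linarith)
    obtain ⟨C, hC⟩ := somewhere_of_cut q (by linarith : 1 < (1 + A) / 2) (by linarith : (1 + A) / 2 < A)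
      h1 h2 hW hm (fun b hu => hb _ _ (af_class hu))
    refine ⟨1 - θ, C, by linarith, ?_⟩
    rw [sub_sub_cancel]
    exact hC
  · have : NeZero q := ⟨by omega⟩
    exact p2 q (1 / 2) le_rfl (by norm_num)
      (fun χ s h3 h4 => small_ne hq χ s (by linarith) h4) ε hε

end

end Pool.Agent.Results.MP_848d44_nt.SquareRootSomewhere
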